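import Pool.Agent.H488.L.Cm

/-!
# Near exceptional points for the generators of the algebra of the multiple zeta values

For a word `w = (k_1, …, k_r)` in positive integers and `j ≥ 0` let `H_j(w)` be the truncated multiple zeta value
`∑ 1/(m_1^{k_1} … m_r^{k_r})`, the sum over `j ≥ m_1 > … > m_r ≥ 1`, and, for `k_1 ≥ 2`, `ζ(w)` the multiple zeta value
(the words are reversed in comparison with the problem page). Let
`S_w(x) = exp (-x) * ∑_j x^j/j! * H_j(w)` and `T_w(x) = exp (-x) * ∑_j x^j/j! * (ζ(w) - H_j(w))` be the Poisson means of the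
truncated values and of the tails; `T_w(0) = ζ(w)` and `S_w(x) + T_w(x) = ζ(w)`. A word is a Lyndon word in positive
integers, for the order in which `k` is before `l` if `k > l`, and different from `(1)`; by a theorem of Hoffman the
numbers `ζ(w)`, `w` a word, generate the algebra of the multiple zeta values.

Let `𝓡` be the `ℚ`-algebra which is generated by the algebraic numbers, the numbers `exp b`, `b` algebraic, and the iterated
integrals `I(a_1, …, a_n)` of the forms `dt/t` and `(exp (a t) - 1) dt/t` from `0` to `1`, with algebraic `a_i`, no two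
nonzero ones of which have sum zero. Let `η_1, …, η_n` be algebraically independent elements of `𝓡`.

We consider `m` rows of `N` numbers `T_w(x)`, `w = w_(i, a)` a word and `x = x_(i, a)` algebraic; all pairs `(w, x)` are
different and no two of the points `x` have sum zero, for example `m` points and the `N` generators of weight at most `k`
at each of them. A row is near exceptional at the scale `H` if a nonzero integral polynomial of degree at most `d` in each
variable and with coefficients of absolute value at most `H` takes at `(η_1, …, η_n)` and the row a value of size at most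
`H^(-κ)`. It is exceptional if some nonzero integral polynomial of degree at most `d` in each variable has the value `0`.

(1) The numbers `η_l` and `S_w(x)` have a measure of algebraic independence which is polynomial in the height; they have
such a measure together with their complex conjugates, if the `η_l`, `conj η_l` are independent and the condition on the pairs
holds for the points and their conjugates.

(2) Let all the `ζ(w)`, `w = w_(i, a)`, be algebraic over `ℚ(η_1, …, η_n, y_1, …, y_s)` for some complex numbers `y_l`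
(one can take for them the values `ζ(w)` themselves). Then for all `d` and `A ≥ 2` there is a `κ` such that at every large scale `H` at most `s` rows
are near exceptional. If there are `s` of them then either they are exceptional, and at the larger scales there are no other
ones, or there is a `Z ≥ H` such that there are no other ones at the scales between `H` and `Z`, and fewer than `s` at the
scales between `Z` and `Z^A`. There are `s` near exceptional rows at all large scales if and only if `s` rows are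
exceptional.

(3) If the condition holds also for the conjugate points, and the `ζ(w)` are algebraic over
`ℚ(η_l, conj η_l, y_1, …, y_s)`, the same is true with `⌊s/2⌋` instead of `s`.

(4) Let `w_1, …, w_N` be different words and `x_1, …, x_m` different points. The rows `T_{w_a}(x)`, `a ≤ N`, of the
`m + 1` points `x = x_1, …, x_m, 0` satisfy the law (2) with `s = N`. (The row of `x = 0` are the multiple zeta values
`ζ(w_a)`.)

(5) Let the condition hold also for the conjugate points, and let all the `ζ(w)` be algebraic over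
`ℚ(η_l, conj η_l, y)` for one number `y`, for example for one word `w` and several points. Then the numbers `η_l`, `T_w(x)` have
a measure of algebraic independence polynomial in the height.

For exact relations, complex points, (2) and (4) are the theorem on exceptional points in `LyndonGenerators` of the library,
which is used for the algebraic independence of the `S_w(x)`.
-/

set_option autoImplicit false

namespace Pool.Agent.Results.MP_f3dc73_nt.NearExceptionalPoints

/-- the integer polynomials in the variables `σ`, of degree at most `d` in every variable,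
with coefficients of absolute value at most `H` -/
def Poly (σ : Type) (d : ℕ) (H : ℝ) : Set (MvPolynomial σ ℤ) :=
  {P | (∀ i, P.degreeOf i ≤ d) ∧ ∀ m, |((P.coeff m : ℤ) : ℝ)| ≤ H}

/-- a measure of algebraic independence, polynomial in the height -/
def Measure {σ : Type} (z : σ → ℂ) : Prop :=
  ∀ d : ℕ, ∃ κ : ℕ, ∃ c : ℝ, 0 < c ∧ ∀ H : ℝ, 1 ≤ H → ∀ P ∈ Poly σ d H, P ≠ 0 →
    c / H ^ κ ≤ ‖MvPolynomial.aeval z P‖

/-- the truncated multiple zeta value: `H_j(k_1, …, k_r)` is the sum over `j ≥ m_1 > … > m_r ≥ 1` -/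
noncomputable def H : List ℕ → ℕ → ℂ
  | [], _ => 1
  | k :: w, j => ∑ i ∈ Finset.range j, H w i / ((i : ℂ) + 1) ^ k

/-- the multiple zeta value (here `m_1 = i + 1`) -/
noncomputable def zeta : List ℕ → ℂ
  | [] => 1
  | k :: w => ∑' i : ℕ, H w i / ((i : ℂ) + 1) ^ k

/-- the tail: the sum over `m_1 > j` (here `m_1 = i + j + 1`) -/
noncomputable def tail : List ℕ → ℕ → ℂ
  | [], _ => 0
  | k :: w, j => ∑' i : ℕ, H w (i + j) / ((i : ℂ) + j + 1) ^ k

/-- `S_w(x)` -/
noncomputable def S (w : List ℕ) (x : ℂ) : ℂ := Complex.exp (-x) * ∑' j : ℕ, x ^ j / j.factorial * H w j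

/-- `T_w(x)` -/
noncomputable def T (w : List ℕ) (x : ℂ) : ℂ := Complex.exp (-x) * ∑' j : ℕ, x ^ j / j.factorial * tail w j

/-- Lyndon words: the letters, and `u v` for Lyndon words `u < v` (lexicographic order for the order of the letters in which
`k` is before `l` if `k > l`) -/
inductive Lyndon : List ℕ → Prop
  | letter (a : ℕ) : Lyndon [a]
  | mul (u v : List ℕ) : Lyndon u → Lyndon v → u.map (fun k : ℕ => -(k : ℤ)) < v.map (fun k : ℕ => -(k : ℤ)) → Lyndon (u ++ v)

/-- Lyndon words in positive integers, different from `(1)` -/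
def Word (w : List ℕ) : Prop := Lyndon w ∧ (∀ k ∈ w, 1 ≤ k) ∧ w ≠ [1]

/-- the iterated integral of `ω_{a_1}(t_1), …, ω_{a_n}(t_n)` over `t > t_1 > … > t_n > 0`, where `ω_0 = dt/t` and
`ω_a = (exp (a t) - 1) dt/t` for `a ≠ 0` -/
noncomputable def iterated : List ℂ → ℝ → ℂ
  | [], _ => 1
  | a :: v, t => ∫ s in (0 : ℝ)..t, (if a = 0 then 1 else Complex.exp (a * s) - 1) * iterated v s / s

/-- the entries are algebraic, the last one is not zero, no two nonzero entries have sum zero -/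
def Admissible (w : List ℂ) : Prop :=
  (∀ a ∈ w, IsAlgebraic ℚ a) ∧ (∀ h : w ≠ [], w.getLast h ≠ 0) ∧ ∀ a ∈ w, a ≠ 0 → -a ∉ w

/-- the algebra `𝓡` -/
noncomputable def ring : Subalgebra ℚ ℂ := Algebra.adjoin ℚ
  ({z | IsAlgebraic ℚ z} ∪ {z | ∃ b : ℂ, IsAlgebraic ℚ b ∧ z = Complex.exp b} ∪
    {z | ∃ w : List ℂ, Admissible w ∧ z = iterated w 1})

/-- algebraically independent elements of `𝓡` -/
def Base {n : ℕ} (η : Fin n → ℂ) : Prop := (∀ l, η l ∈ ring) ∧ AlgebraicIndependent ℚ η

/-- the numbers `η_l` and `conj η_l` -/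
noncomputable def both {n : ℕ} (η : Fin n → ℂ) : Fin n ⊕ Fin n → ℂ :=
  Sum.elim η fun l => (starRingEnd ℂ) (η l)

/-- elements of `𝓡` which are algebraically independent together with their complex conjugates -/
def ConjBase {n : ℕ} (η : Fin n → ℂ) : Prop := (∀ l, η l ∈ ring) ∧ AlgebraicIndependent ℚ (both η)

/-- the condition on the pairs `(w_(i, a), x_(i, a))` of words and points -/
def Data {m N : ℕ} (w : Fin m → Fin N → List ℕ) (x : Fin m → Fin N → ℂ) : Prop :=
  (∀ i a, Word (w i a) ∧ IsAlgebraic ℚ (x i a)) ∧ (∀ i a j b, x i a + x j b ≠ 0) ∧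
    Function.Injective fun q : Fin m × Fin N => (w q.1 q.2, x q.1 q.2)

/-- the condition for the points and the conjugate points -/
def ConjData {m N : ℕ} (w : Fin m → Fin N → List ℕ) (x : Fin m → Fin N → ℂ) : Prop :=
  Data w x ∧ (∀ i a j b, x i a + (starRingEnd ℂ) (x j b) ≠ 0) ∧
    ∀ i a j b, (w i a, x i a) ≠ (w j b, (starRingEnd ℂ) (x j b))

/-- the numbers `η_l` and `S_w(x)` -/
noncomputable def numS {n m N : ℕ} (η : Fin n → ℂ) (w : Fin m → Fin N → List ℕ) (x : Fin m → Fin N → ℂ) :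
    Fin n ⊕ (Fin m × Fin N) → ℂ := Sum.elim η fun q => S (w q.1 q.2) (x q.1 q.2)

/-- the rows which are near exceptional at the scale `H` -/
def Near {n N : ℕ} {ι : Type} (η : Fin n → ℂ) (v : ι → Fin N → ℂ) (d κ : ℕ) (H : ℝ) : Set ι :=
  {i | ∃ P ∈ Poly (Fin n ⊕ Fin N) d H, P ≠ 0 ∧ ‖MvPolynomial.aeval (Sum.elim η (v i)) P‖ ≤ 1 / H ^ κ}

/-- the exceptional rows -/
def Exceptional {n N : ℕ} (η : Fin n → ℂ) (d : ℕ) (v : Fin N → ℂ) : Prop :=
  ∃ P : MvPolynomial (Fin n ⊕ Fin N) ℤ, P ≠ 0 ∧ (∀ o, P.degreeOf o ≤ d) ∧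
    MvPolynomial.aeval (Sum.elim η v) P = 0

/-- the law of the near exceptional rows: the bound `s`, the dichotomy, the zero-one law -/
def Law {n N : ℕ} {ι : Type} (s : ℕ) (η : Fin n → ℂ) (v : ι → Fin N → ℂ) (d κ A : ℕ) : Prop :=
  (∃ H₀ : ℝ, ∀ H : ℝ, H₀ ≤ H → (Near η v d κ H).ncard ≤ s ∧ ((Near η v d κ H).ncard = s →
    ((∀ i ∈ Near η v d κ H, Exceptional η d (v i)) ∧
      ∀ Y : ℝ, H ≤ Y → Near η v d κ Y ⊆ Near η v d κ H) ∨
    ∃ Z : ℝ, H ≤ Z ∧ (∀ Y : ℝ, H ≤ Y → Y ≤ Z → Near η v d κ Y ⊆ Near η v d κ H) ∧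
      ∀ Y : ℝ, Z < Y → Y ≤ Z ^ A → (Near η v d κ Y).ncard < s)) ∧
  ((∃ R : Finset ι, R.card = s ∧ ∀ i ∈ R, Exceptional η d (v i)) ↔
    ∃ H₁ : ℝ, ∀ H : ℝ, H₁ ≤ H → s ≤ (Near η v d κ H).ncard)

open Pool.Agent.N902.EW (II KK)
open Pool.Agent.N778
open Pool.Agent.H488.M (Meas Bd vl)
open Pool.Agent.H488

theorem iterated_eq (w : List ℂ) : ∀ t : ℝ, iterated w t = II w t := by
  induction w with
  | nil => intro t; rfl
  | cons a v ih =>
    intro t
    rw [iterated, II]
    refine intervalIntegral.integral_congr fun s _ => ?_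
    show (if a = 0 then 1 else Complex.exp (a * s) - 1) * iterated v s / s = _
    rw [ih]

theorem ring_eq : ring = Algebra.adjoin ℚ L.Gr := by
  rw [ring, L.Gr]
  congr 2
  ext z
  constructor
  · rintro ⟨w, hw, rfl⟩
    exact ⟨w, ⟨hw.1, hw.2.1⟩, hw.2.2, iterated_eq w 1⟩
  · rintro ⟨w, hw, hno, rfl⟩
    exact ⟨w, ⟨hw.1, hw.2, hno⟩, (iterated_eq w 1).symm⟩

theorem H_eq (w : List ℕ) (j : ℕ) : H w j = MZ.H w j := by
  induction w generalizing j with
  | nil => rfl
  | cons k w ih =>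
    rw [H, MZ.H]
    exact Finset.sum_congr rfl fun i _ => by rw [ih]

theorem zeta_eq (w : List ℕ) : zeta w = MZ.zt w := by
  rcases w with _ | ⟨k, w⟩
  · rfl
  · rw [zeta, MZ.zt]
    exact tsum_congr fun i => by rw [H_eq]

theorem tail_eq (w : List ℕ) (j : ℕ) : tail w j = MZ.tl w j := by
  rcases w with _ | ⟨k, w⟩
  · rfl
  · rw [tail, MZ.tl]
    exact tsum_congr fun i => by rw [H_eq]

theorem S_eq (w : List ℕ) (x : ℂ) : S w x = MZ.S w x := by
  rw [S, MZ.S]
  congr 1
  exact tsum_congr fun j => by rw [H_eq]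

theorem T_eq (w : List ℕ) (x : ℂ) : T w x = MZ.T w x := by
  rw [T, MZ.T]
  congr 1
  exact tsum_congr fun j => by rw [tail_eq]

theorem lyndon_iff (w : List ℕ) : Lyndon w ↔ MZ.LynO (fun k : ℕ => -(k : ℤ)) w := by
  constructor
  · intro h
    induction h with
    | letter a => exact MZ.LynO.letter a
    | mul u v _ _ huv hu hv => exact MZ.LynO.mul u v hu hv huv
  · intro h
    induction h with
    | letter a => exact Lyndon.letter a
    | mul u v _ _ huv hu hv => exact Lyndon.mul u v hu hv huv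

theorem word_iff (w : List ℕ) : Word w ↔ MZ.GW w := by
  rw [Word, MZ.GW, lyndon_iff]

theorem ST_eq {w : List ℕ} (hw : Word w) (x : ℂ) : S w x + T w x = zeta w := by
  rw [T_eq, zeta_eq, S_eq]
  exact MZ.S_add_Tn ((word_iff w).1 hw).adW x

theorem T_zero {w : List ℕ} (hw : Word w) : T w 0 = zeta w := by
  rw [T_eq, zeta_eq]
  exact MZ.T_zeron ((word_iff w).1 hw).adW

theorem measure_of {σ : Type} {z : σ → ℂ} (h : Meas z) : Measure z := by
  intro d
  obtain ⟨κ, c, hc, h⟩ := h d
  refine ⟨κ, c, hc, fun H hH P hP hP0 => ?_⟩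
  rw [div_le_iff₀ (by positivity), mul_comm]
  exact h P hP0 H hH hP

theorem law_of {n N : ℕ} {ι : Type} [Fintype ι] {s : ℕ} {η : Fin n → ℂ} {v : ι → Fin N → ℂ} {d κ A : ℕ}
    (h : L.LawB s η v d κ A) : Law s η v d κ A := by
  have e : Near η v d κ = L.NB η v d κ := by
    funext H
    ext i
    constructor
    · rintro ⟨P, hP, hP0, hs⟩
      exact ⟨P, hP0, hP, hs⟩
    · rintro ⟨P, hP0, hP, hs⟩
      exact ⟨P, hP, hP0, hs⟩
  unfold Law
  rw [e]
  exact h

/-- the polynomials -/
noncomputable def G {m N : ℕ} (q : Fin m × Fin N) : MvPolynomial (Fin m × Fin N) ℂ := MvPolynomial.X q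

theorem G_alg {m N : ℕ} (q : Fin m × Fin N) (l : (Fin m × Fin N) →₀ ℕ) :
    IsAlgebraic ℚ ((G q).coeff l) := by
  rw [G, MvPolynomial.coeff_X]
  split_ifs
  · exact isAlgebraic_one
  · exact isAlgebraic_zero

/-- the numbers `ζ(w)` -/
noncomputable def zz {m N : ℕ} (w : Fin m → Fin N → List ℕ) (q : Fin m × Fin N) : ℂ := zeta (w q.1 q.2)

theorem bv_eq {m N : ℕ} {w : Fin m → Fin N → List ℕ} {x : Fin m → Fin N → ℂ} (hw : ∀ i a, Word (w i a)) :
    L.bv G (zz w) (fun q => S (w q.1 q.2) (x q.1 q.2)) = fun i a => T (w i a) (x i a) := by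
  funext i a
  rw [L.bv, G, MvPolynomial.eval_X, zz, ← ST_eq (hw i a) (x i a), add_sub_cancel_left]

theorem meas1 {n m N : ℕ} {η : Fin n → ℂ} {w : Fin m → Fin N → List ℕ} {x : Fin m → Fin N → ℂ}
    (hη : Base η) (hx : Data w x) : Meas (numS η w x) := by
  have h := L.meas_S η (fun l => by rw [← ring_eq]; exact hη.1 l) hη.2
    (fun q : Fin m × Fin N => w q.1 q.2) (fun q => x q.1 q.2) (fun q => (word_iff _).1 (hx.1 _ _).1)
    (fun q => (hx.1 _ _).2) (fun q q' => hx.2.1 _ _ _ _) hx.2.2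
  have e : numS η w x = Sum.elim η fun q : Fin m × Fin N => MZ.S (w q.1 q.2) (x q.1 q.2) := by
    rw [numS]
    congr 1
    funext q
    exact S_eq _ _
  rw [e]
  exact h

theorem meas2 {n m N : ℕ} {η : Fin n → ℂ} {w : Fin m → Fin N → List ℕ} {x : Fin m → Fin N → ℂ}
    (hη : ConjBase η) (hx : ConjData w x) :
    Meas (Sum.elim (numS η w x) fun o => (starRingEnd ℂ) (numS η w x o)) := by
  obtain ⟨hx, hx3, hx4⟩ := hx
  have h := L.meas_SC η (fun l => by rw [← ring_eq]; exact hη.1 l) hη.2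
    (fun q : Fin m × Fin N => w q.1 q.2) (fun q => x q.1 q.2) (fun q => (word_iff _).1 (hx.1 _ _).1)
    (fun q => (hx.1 _ _).2) (fun q q' => hx.2.1 _ _ _ _) (fun q q' => hx3 _ _ _ _) hx.2.2
    (fun q q' h1 h2 => hx4 q.1 q.2 q'.1 q'.2 (Prod.ext h1 h2))
  have e : numS η w x = Sum.elim η fun q : Fin m × Fin N => MZ.S (w q.1 q.2) (x q.1 q.2) := by
    rw [numS]
    congr 1
    funext q
    exact S_eq _ _
  rw [e]
  exact h

theorem zz_real {m N : ℕ} (w : Fin m → Fin N → List ℕ) (q : Fin m × Fin N) :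
    (((zz w q).re : ℝ) : ℂ) = zz w q := by
  rw [← Complex.conj_eq_iff_re, zz, zeta_eq]
  exact L.zt_conj _

theorem part2 {n m N s : ℕ} {η : Fin n → ℂ} {w : Fin m → Fin N → List ℕ} {x : Fin m → Fin N → ℂ}
    (hη : Base η) (hx : Data w x) (y : Fin s → ℂ)
    (hy : ∀ i a, IsAlgebraic (IntermediateField.adjoin ℚ (Set.range (Sum.elim η y))) (zeta (w i a)))
    (d A : ℕ) (hA : 2 ≤ A) : ∃ κ : ℕ, Law s η (fun i a => T (w i a) (x i a)) d κ A := by
  have hr := L.rk_adj η (zz w) y fun q => hy q.1 q.2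
  obtain ⟨k, h₁, hh₁, hj⟩ := L.jb_complex η (fun q => S (w q.1 q.2) (x q.1 q.2)) (meas1 hη hx)
    G G_alg d (zz w) s hr
  rw [bv_eq fun i a => (hx.1 i a).1] at hj
  obtain ⟨κ, h⟩ := L.lawB_of s η _ d k h₁ hh₁ hj A hA
  exact ⟨κ, law_of h⟩

theorem part3 {n m N s : ℕ} {η : Fin n → ℂ} {w : Fin m → Fin N → List ℕ} {x : Fin m → Fin N → ℂ}
    (hη : ConjBase η) (hx : ConjData w x) (y : Fin s → ℂ)
    (hy : ∀ i a, IsAlgebraic (IntermediateField.adjoin ℚ (Set.range (Sum.elim (both η) y)))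
      (zeta (w i a)))
    (d A : ℕ) (hA : 2 ≤ A) : ∃ κ : ℕ, Law (s / 2) η (fun i a => T (w i a) (x i a)) d κ A := by
  have hr := L.rk_adj (both η) (zz w) y fun q => hy q.1 q.2
  obtain ⟨yr, hyr⟩ : ∃ yr : Fin m × Fin N → ℝ, yr = fun q => (zz w q).re := ⟨_, rfl⟩
  have hyr2 : (fun q => ((yr q : ℝ) : ℂ)) = zz w := by
    funext q
    rw [hyr]
    exact zz_real w q
  obtain ⟨k, h₁, hh₁, hj⟩ := L.jb_real η (fun q => S (w q.1 q.2) (x q.1 q.2)) (meas2 hη hx)
    G G_alg d yr s (by
      rw [hyr2, two_mul]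
      rw [Fintype.card_sum] at hr
      exact hr)
  rw [hyr2, bv_eq fun i a => (hx.1.1 i a).1] at hj
  obtain ⟨κ, h⟩ := L.lawB_of (s / 2) η _ d k h₁ hh₁ hj A hA
  exact ⟨κ, law_of h⟩

/-- the polynomials -/
noncomputable def G0 {m N : ℕ} (q : Fin m × Fin N) : MvPolynomial (Fin N) ℂ := MvPolynomial.X q.2

theorem G0_alg {m N : ℕ} (q : Fin m × Fin N) (l : Fin N →₀ ℕ) : IsAlgebraic ℚ ((G0 q).coeff l) := by
  rw [G0, MvPolynomial.coeff_X]
  split_ifs
  · exact isAlgebraic_one
  · exact isAlgebraic_zero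

/-- the numbers `ζ(w)` -/
noncomputable def z0 {N : ℕ} (w : Fin N → List ℕ) (a : Fin N) : ℂ := zeta (w a)

/-- the numbers `S_w(x)` -/
noncomputable def S0 {m N : ℕ} (w : Fin N → List ℕ) (x : Fin m → ℂ) (q : Fin m × Fin N) : ℂ :=
  S (w q.2) (x q.1)

/-- the rows of the points `x_i` and `0` -/
noncomputable def rows {m N : ℕ} (w : Fin N → List ℕ) (x : Fin m → ℂ) (o : Option (Fin m))
    (a : Fin N) : ℂ := T (w a) (o.elim 0 x)

theorem bz_eq {m N : ℕ} {w : Fin N → List ℕ} {x : Fin m → ℂ} (hw : ∀ a, Word (w a)) :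
    L.bz G0 (z0 w) (S0 w x) = rows w x := by
  funext o a
  rcases o with _ | i
  · exact (T_zero (hw a)).symm
  · show L.bv G0 (z0 w) (S0 w x) i a = T (w a) (x i)
    rw [L.bv, G0, MvPolynomial.eval_X, z0, S0, ← ST_eq (hw a) (x i), add_sub_cancel_left]

theorem part4 {n m N : ℕ} {η : Fin n → ℂ} {w : Fin N → List ℕ} {x : Fin m → ℂ}
    (hη : Base η) (hx : Data (fun _ : Fin m => w) (fun i _ => x i)) (hw : ∀ a, Word (w a))
    (d A : ℕ) (hA : 2 ≤ A) : ∃ κ : ℕ, Law N η (rows w x) d κ A := by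
  have hm : Meas (Sum.elim η (S0 w x)) :=
    meas1 (w := fun _ : Fin m => w) (x := fun i _ => x i) hη hx
  obtain ⟨k, h₁, hh₁, hj⟩ := L.jb_zero η (S0 w x) hm G0 G0_alg d (z0 w)
  rw [bz_eq hw, Fintype.card_fin] at hj
  obtain ⟨κ, h⟩ := L.lawB_of N η _ d k h₁ hh₁ hj A hA
  exact ⟨κ, law_of h⟩

theorem part5 {n N : ℕ} {η : Fin n → ℂ} {w : Fin N → List ℕ} {x : Fin N → ℂ}
    (hη : ConjBase η) (hx : ConjData (fun _ : Fin 1 => w) (fun _ => x)) (y : ℂ)
    (hy : ∀ a, IsAlgebraic (IntermediateField.adjoin ℚ (Set.range (Sum.elim (both η) fun _ : Fin 1 => y)))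
      (zeta (w a))) : Measure (Sum.elim η fun a => T (w a) (x a)) := by
  intro d
  obtain ⟨κ, ⟨H₀, h⟩, -⟩ := part3 hη hx (fun _ : Fin 1 => y) (fun _ a => hy a) d 2 le_rfl
  obtain ⟨K, hK⟩ : ∃ K : ℝ, K = max H₀ 1 := ⟨_, rfl⟩
  have hK1 : 1 ≤ K := by rw [hK]; exact le_max_right _ _
  have hK0 : H₀ ≤ K := by rw [hK]; exact le_max_left _ _
  have key : ∀ Y : ℝ, H₀ ≤ Y → ∀ P ∈ Poly (Fin n ⊕ Fin N) d Y, P ≠ 0 →
      1 / Y ^ κ < ‖MvPolynomial.aeval (Sum.elim η fun a => T (w a) (x a)) P‖ := by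
    intro Y hY P hP hP0
    by_contra hcon
    push Not at hcon
    have h1 := (h Y hY).1
    have h2 : (0 : Fin 1) ∈ Near η (fun (_ : Fin 1) a => T (w a) (x a)) d κ Y := ⟨P, hP, hP0, hcon⟩
    have h3 := (Set.ncard_pos (Set.toFinite _)).2 ⟨_, h2⟩
    have h4 : (1 : ℕ) / 2 = 0 := rfl
    rw [h4] at h1
    omega
  refine ⟨κ, 1 / K ^ κ, by positivity, fun H hH P hP hP0 => ?_⟩
  have hH0 : 0 < H := by linarith
  by_cases hHK : K ≤ H
  · refine le_trans ?_ (key H (hK0.trans hHK) P hP hP0).le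
    refine div_le_div_of_nonneg_right ?_ (by positivity)
    rw [div_le_one (by positivity)]
    exact one_le_pow₀ hK1
  · push Not at hHK
    refine le_trans ?_ (key K hK0 P ⟨hP.1, fun m => (hP.2 m).trans hHK.le⟩ hP0).le
    refine div_le_self (by positivity) ?_
    exact one_le_pow₀ hH

/-- **Near exceptional points for the damped generators of the algebra of the multiple zeta values** -/
theorem result :
    -- the numbers `T_w(0)`, and `S_w(x) + T_w(x)`
    (∀ w : List ℕ, Word w → T w 0 = zeta w ∧ ∀ x : ℂ, S w x + T w x = zeta w) ∧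
    -- (1)
    (∀ (n m N : ℕ) (η : Fin n → ℂ) (w : Fin m → Fin N → List ℕ) (x : Fin m → Fin N → ℂ),
      (Base η → Data w x → Measure (numS η w x)) ∧
      (ConjBase η → ConjData w x →
        Measure (Sum.elim (numS η w x) fun o => (starRingEnd ℂ) (numS η w x o)))) ∧
    -- (2)
    (∀ (n m N s : ℕ) (η : Fin n → ℂ) (w : Fin m → Fin N → List ℕ) (x : Fin m → Fin N → ℂ)
      (y : Fin s → ℂ), Base η → Data w x →
      (∀ i a, IsAlgebraic (IntermediateField.adjoin ℚ (Set.range (Sum.elim η y))) (zeta (w i a))) →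
      ∀ d A : ℕ, 2 ≤ A → ∃ κ : ℕ, Law s η (fun i a => T (w i a) (x i a)) d κ A) ∧
    -- (3)
    (∀ (n m N s : ℕ) (η : Fin n → ℂ) (w : Fin m → Fin N → List ℕ) (x : Fin m → Fin N → ℂ)
      (y : Fin s → ℂ), ConjBase η → ConjData w x →
      (∀ i a, IsAlgebraic (IntermediateField.adjoin ℚ (Set.range (Sum.elim (both η) y)))
        (zeta (w i a))) →
      ∀ d A : ℕ, 2 ≤ A → ∃ κ : ℕ, Law (s / 2) η (fun i a => T (w i a) (x i a)) d κ A) ∧
    -- (4)
    (∀ (n m N : ℕ) (η : Fin n → ℂ) (w : Fin N → List ℕ) (x : Fin m → ℂ), Base η →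
      (∀ a, Word (w a)) → Data (fun _ : Fin m => w) (fun i _ => x i) →
      ∀ d A : ℕ, 2 ≤ A → ∃ κ : ℕ,
        Law N η (fun (o : Option (Fin m)) a => T (w a) (o.elim 0 x)) d κ A) ∧
    -- (5)
    (∀ (n N : ℕ) (η : Fin n → ℂ) (w : Fin N → List ℕ) (x : Fin N → ℂ) (y : ℂ), ConjBase η →
      ConjData (fun _ : Fin 1 => w) (fun _ => x) →
      (∀ a, IsAlgebraic (IntermediateField.adjoin ℚ (Set.range (Sum.elim (both η) fun _ : Fin 1 => y)))
        (zeta (w a))) →
      Measure (Sum.elim η fun a => T (w a) (x a))) := by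
  refine ⟨fun w hw => ⟨T_zero hw, ST_eq hw⟩, fun n m N η w x => ⟨fun hη hx => measure_of (meas1 hη hx),
    fun hη hx => measure_of (meas2 hη hx)⟩, fun n m N s η w x y hη hx hy d A hA =>
    part2 hη hx y hy d A hA, fun n m N s η w x y hη hx hy d A hA => part3 hη hx y hy d A hA,
    fun n m N η w x hη hw hx d A hA => ?_, fun n N η w x y hη hx hy => part5 hη hx y hy⟩
  obtain ⟨κ, h⟩ := part4 hη hx hw d A hA
  have e : rows w x = fun (o : Option (Fin m)) a => T (w a) (o.elim 0 x) := rfl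
  rw [e] at h
  exact ⟨κ, h⟩

end Pool.Agent.Results.MP_f3dc73_nt.NearExceptionalPoints
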